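import Mathlib
import Pool.Agent.H6.LexMain

/-!
There is a semiring-homomorphic graph invariant that is not multiplicative under the
lexicographic product: it is strictly submultiplicative on the 5-cycle and a complete graph.
-/

namespace Pool.Agent.Results.MP_4c8f29_co.LexNotMultiplicative

open Pool.Agent.H6.Lex

/-- There are a number `d` and a semiring-homomorphic graph invariant `η` with
`η (C_5 ⋉ K_d) < η (C_5) * η (K_d)`. -/
theorem result : ∃ (d : ℕ) (η : ∀ (V : Type) [Finite V], SimpleGraph V → ℝ),
    IsSemiringInvariant η ∧
      η (Fin 5 × Fin d) (lex (SimpleGraph.cycleGraph 5) (⊤ : SimpleGraph (Fin d))) <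
        η (Fin 5) (SimpleGraph.cycleGraph 5) * η (Fin d) (⊤ : SimpleGraph (Fin d)) :=
  main

end Pool.Agent.Results.MP_4c8f29_co.LexNotMultiplicative
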